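import Pool.Agent.Helper77_MVD.KP2

/-!
Class division, world `x ^ 2 = x ^ (n + 2)`: the row KP2 of MVD without the hypothesis that `x ^ 2`
is an isoterm.
-/

set_option autoImplicit false

namespace Pool.Agent.MWD.H11

open Pool.Agent.Helper14_MV Pool.Agent.Helper2_MV Pool.Agent.MVD Pool.Agent.MVD.H77

/-- KP2 with `Iso3` only -/
def Kp3Stmt : Prop := ∀ β : FIC, Iso3 β → ∀ (R : List ℕ) (B B' : ℕ → List ℕ) (e : List ℕ),
  R.Nodup → (∀ r ∈ R, SFr (B r)) → (∀ r ∈ R, SFr (B' r)) → SFr e →
    RR β (Bw R B) (Bw R B' ++ e) → ∀ (c r s : ℕ), c % 3 ≠ 2 → r ∈ R → s ∈ R → r ≠ s →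
      (∀ q ∈ R, (B q).count c = if q = r ∨ q = s then 1 else 0) →
        (∀ q ∈ R, (B' q).count c = if q = r ∨ q = s then 1 else 0) ∧ e.count c = 0

theorem cnt_aux (β : FIC) (h3 : Iso3 β) (A C : List ℕ) (r s : ℕ) (B B' : ℕ → List ℕ)
    (e : List ℕ) (hR : (A ++ r :: C).Nodup) (hB : ∀ r' ∈ A ++ r :: C, SFr (B r'))
    (hB' : ∀ r' ∈ A ++ r :: C, SFr (B' r')) (he : SFr e)
    (hRR : RR β (Bw (A ++ r :: C) B) (Bw (A ++ r :: C) B' ++ e)) (c : ℕ) (hc : c % 3 ≠ 2)
    (hs : s ∈ C) (hcnt : ∀ q ∈ A ++ r :: C, (B q).count c = if q = r ∨ q = s then 1 else 0) :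
    (Bw (A ++ r :: C) B' ++ e).count c = 2 := by
  have hnd := hR
  rw [List.nodup_append, List.nodup_cons] at hnd
  have hrA : r ∉ A := fun h => hnd.2.2 _ h _ List.mem_cons_self rfl
  have hrC : r ∉ C := hnd.2.1.1
  have hsA : s ∉ A := fun h => hnd.2.2 _ h _ (List.mem_cons_of_mem _ hs) rfl
  have hrs : r ≠ s := fun h => hrC (h ▸ hs)
  have hF := hRR.filter (fun i => i == c || i == 3 * r + 2)
  rw [← List.append_nil (Bw (A ++ r :: C) B),
    filt_mem hc B _ _ [] hB (fun x hx => absurd hx (List.not_mem_nil)) hrA hrC,
    filt_mem hc B' _ _ e hB' he hrA hrC] at hF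
  have hne : c ≠ 3 * r + 2 := by
    intro h
    omega
  have hi := rep_iff h3 hne hF
  have p1 : ((A ++ [r]).map fun q => (B q).count c).sum = 1 := by
    rw [List.map_congr_left (g := fun q => if q = r ∨ q = s then 1 else 0)
      (fun q hq => hcnt q (by
        rcases List.mem_append.mp hq with h | h
        · exact List.mem_append_left _ h
        · rw [List.mem_singleton] at h
          rw [h]
          exact List.mem_append_right _ List.mem_cons_self)), sum_two hrs, List.count_append,
      List.count_append, List.count_eq_zero.mpr hrA, List.count_eq_zero.mpr hsA,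
      List.count_singleton_self, List.count_eq_zero.mpr (by
        rw [List.mem_singleton]; exact fun h => hrs h.symm)]
  have p2 : (C.map fun q => (B q).count c).sum = 1 := by
    rw [List.map_congr_left (g := fun q => if q = r ∨ q = s then 1 else 0)
      (fun q hq => hcnt q (List.mem_append_right _ (List.mem_cons_of_mem _ hq))), sum_two hrs,
      List.count_eq_zero.mpr hrC, List.count_eq_one_of_mem hnd.2.1.2 hs]
  have hq := hi.1 ⟨p1, by rw [List.count_nil, p2]⟩
  rw [List.count_append, count_bw hc]
  have h9 : ((A ++ r :: C).map fun q => (B' q).count c).sum =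
      ((A ++ [r]).map fun q => (B' q).count c).sum + (C.map fun q => (B' q).count c).sum := by
    rw [List.map_append, List.sum_append, List.map_append, List.sum_append, List.map_cons,
      List.map_cons, List.map_nil, List.sum_cons, List.sum_cons, List.sum_nil]
    omega
  omega

theorem kp3 : Kp3Stmt := by
  intro β h3 R B B' e hR hB hB' he hRR c r s hc hr hs hrs hcnt
  have hcount2 : (Bw R B' ++ e).count c = 2 := by
    obtain ⟨A, C, hAC⟩ := List.append_of_mem hr
    subst hAC
    rcases List.mem_append.mp hs with h | h
    · obtain ⟨A1, A2, hA⟩ := List.append_of_mem h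
      subst hA
      have e1 : A1 ++ s :: A2 ++ r :: C = A1 ++ s :: (A2 ++ r :: C) := by
        rw [List.append_assoc, List.cons_append]
      rw [e1] at hR hB hB' hRR hcnt ⊢
      exact cnt_aux β h3 A1 (A2 ++ r :: C) s r B B' e hR hB hB' he hRR c hc
        (List.mem_append_right _ List.mem_cons_self)
        (fun q hq => by
          rw [hcnt q hq]
          exact if_congr (or_comm) rfl rfl)
    · have hsC : s ∈ C := by
        rcases List.mem_cons.mp h with h' | h'
        · exact absurd h'.symm hrs
        · exact h'
      exact cnt_aux β h3 A C r s B B' e hR hB hB' he hRR c hc hsC hcnt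
  have hcount : (R.map fun q => (B q).count c).sum = 2 := by
    rw [List.map_congr_left (fun q hq => hcnt q hq), sum_two hrs,
      List.count_eq_one_of_mem hR hr, List.count_eq_one_of_mem hR hs]
  have hT' : (R.map fun q => (B' q).count c).sum + e.count c = 2 := by
    have h4 := hcount2
    rw [List.count_append, count_bw hc] at h4
    exact h4
  have hstep : ∀ (g : ℕ → ℕ) (n : ℕ) (hn : n < R.length),
      ((R.take (n + 1)).map g).sum = ((R.take n).map g).sum + g (R[n]) := by
    intro g n hn
    rw [List.take_succ_eq_append_getElem hn, List.map_append, List.sum_append, List.map_cons,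
      List.map_nil, List.sum_cons, List.sum_nil, add_zero]
  have hcore := core R.length
    (fun n => ((R.take n).map fun q => (B q).count c).sum)
    (fun n => ((R.take n).map fun q => (B' q).count c).sum) (e.count c)
    (fun n hn => by
      show ((R.take (n + 1)).map fun q => (B q).count c).sum ≤ _
      rw [hstep _ n hn, hcnt _ (List.getElem_mem hn)]
      split_ifs <;> omega)
    (fun n hn => by
      show _ ≤ ((R.take (n + 1)).map fun q => (B q).count c).sum
      rw [hstep _ n hn]
      omega)
    (fun n hn => by
      show _ ≤ ((R.take (n + 1)).map fun q => (B' q).count c).sum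
      rw [hstep _ n hn]
      omega)
    (by simp) (by simp) (by rw [List.take_length]; exact hcount)
    (by rw [List.take_length]; exact hT')
    (fun n hn => by
      have hdec : R = R.take n ++ R[n] :: R.drop (n + 1) := by
        rw [← List.drop_eq_getElem_cons hn, List.take_append_drop]
      have hnd : (R.take n ++ R[n] :: R.drop (n + 1)).Nodup := by rw [← hdec]; exact hR
      rw [List.nodup_append, List.nodup_cons] at hnd
      have hq1 : R[n] ∉ R.take n := fun h => hnd.2.2 _ h _ List.mem_cons_self rfl
      have hq2 : R[n] ∉ R.drop (n + 1) := hnd.2.1.1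
      have htake : R.take (n + 1) = R.take n ++ [R[n]] := List.take_succ_eq_append_getElem hn
      have hF := hRR.filter (fun i => i == c || i == 3 * R[n] + 2)
      have e1 : Bw R B = Bw (R.take n ++ R[n] :: R.drop (n + 1)) B ++ [] := by
        rw [List.append_nil, ← hdec]
      have e2 : Bw R B' ++ e = Bw (R.take n ++ R[n] :: R.drop (n + 1)) B' ++ e := by
        rw [← hdec]
      rw [e1, e2, filt_mem hc B _ _ [] (by rw [← hdec]; exact hB)
        (fun x hx => absurd hx (List.not_mem_nil)) hq1 hq2,
        filt_mem hc B' _ _ e (by rw [← hdec]; exact hB') he hq1 hq2, ← htake] at hF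
      have hne : c ≠ 3 * R[n] + 2 := by
        intro h
        omega
      have hi := rep_iff h3 hne hF
      have t1 : ((R.take (n + 1)).map fun q => (B q).count c).sum
          + ((R.drop (n + 1)).map fun q => (B q).count c).sum = 2 := by
        rw [← List.sum_append, ← List.map_append, List.take_append_drop]
        exact hcount
      have t2 : ((R.take (n + 1)).map fun q => (B' q).count c).sum
          + ((R.drop (n + 1)).map fun q => (B' q).count c).sum + e.count c = 2 := by
        rw [← List.sum_append, ← List.map_append, List.take_append_drop]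
        exact hT'
      rw [List.count_nil] at hi
      show ((R.take (n + 1)).map fun q => (B q).count c).sum = 1 ↔
        ((R.take (n + 1)).map fun q => (B' q).count c).sum = 1
      omega)
  refine ⟨fun q hq => ?_, hcore.2⟩
  obtain ⟨n, hn, hqn⟩ := List.getElem_of_mem hq
  have h5 := hcore.1 (n + 1) (by omega)
  have h6 := hcore.1 n (by omega)
  have h7 := hstep (fun q => (B q).count c) n hn
  have h8 := hstep (fun q => (B' q).count c) n hn
  have h9 := hcnt q hq
  rw [← hqn] at h9 ⊢
  rw [← h9]
  omega

end Pool.Agent.MWD.H11
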