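import Pool.Agent.Helper23_MVD.KPF
import Pool.Agent.Helper11_MWD.KP3

/-!
The row KPF of MVD (compound pins: shape) without the hypothesis that `x ^ 2` is an isoterm.
-/

set_option autoImplicit false

namespace Pool.Agent.MWD.H11

open Pool.Agent.Helper14_MV Pool.Agent.Helper2_MV Pool.Agent.MVD Pool.Agent.MVD.H23

/-- KPF with `Iso3` only -/
def Kpf3Stmt : Prop := ∀ β : FIC, Iso3 β → ∀ (m : ℕ) (R : List ℕ) (G : List ℕ → Prop),
  1 ≤ m → R.Perm (List.range (m + 2)) → GOk β m R G → ∀ s w w' : List ℕ, Fam R G s w →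
    RR β w w' → Fam R G s w'

/-- **KPF** -/
theorem kpf3 (hDec : DecStmt) (hKp3 : Kp3Stmt) (hUni : UniStmt) : Kpf3Stmt := by
  intro β H3 m R G hm hR hG s w w' hF hw
  obtain ⟨hs, h, B, hGh, hB0, hB1, hBr, rfl⟩ := hF
  have hRn : R.Nodup := hR.nodup_iff.2 List.nodup_range
  have hRmem : ∀ r, r ∈ R ↔ r < m + 2 := fun r => by rw [hR.mem_iff, List.mem_range]
  have h0R : 0 ∈ R := (hRmem 0).2 (by omega)
  have h1R : 1 ∈ R := (hRmem 1).2 (by omega)
  have hhp : ∀ k < 3, (h k).Perm (List.range m) := fun k hk => hG.perm _ (hGh k hk)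
  have hB0p : (B 0).Perm [0, 3, 6, 9] := by
    rw [hB0]
    exact hs.map (fun i => 3 * i)
  have cB : ∀ q ∈ R, ∀ c, (B q).count c =
      if q = 0 then (if c % 3 = 0 ∧ c < 12 then 1 else 0)
      else if q = 1 then (if (c % 3 = 0 ∧ c < 12) ∨ (c % 3 = 1 ∧ c / 9 < m) then 1 else 0)
      else (if c % 3 = 1 ∧ c / 9 = q - 2 then 1 else 0) := by
    intro q hq c
    by_cases h0 : q = 0
    · subst h0
      rw [if_pos rfl]
      exact count_X hB0p c
    · rw [if_neg h0]
      by_cases h1 : q = 1
      · subst h1
        rw [if_pos rfl, hB1]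
        exact count_L3 hhp c
      · rw [if_neg h1]
        exact count_Z3 (hBr q hq (by omega)) c
  have hSB : ∀ r ∈ R, SFr (B r) := by
    intro r hr c hc hc2
    have h1 := List.count_pos_iff.2 hc
    rw [cB r hr c] at h1
    split_ifs at h1 <;> omega
  obtain ⟨B', e, hSB', hSe, rfl⟩ := hDec β H3 R B w' hRn hSB hw
  have hcnt : ∀ c, c % 3 ≠ 2 → (∀ q ∈ R, (B' q).count c = (B q).count c) ∧ e.count c = 0 := by
    intro c hc
    by_cases hA : c % 3 = 0 ∧ c < 12
    · have hq : ∀ q ∈ R, (B q).count c = if q = 0 ∨ q = 1 then 1 else 0 := by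
        intro q hq
        rw [cB q hq c]
        by_cases h0 : q = 0
        · rw [if_pos h0, if_pos hA, if_pos (Or.inl h0)]
        · rw [if_neg h0]
          by_cases h1 : q = 1
          · rw [if_pos h1, if_pos (Or.inl hA), if_pos (Or.inr h1)]
          · rw [if_neg h1, if_neg (by omega), if_neg (by omega)]
      have h1 := hKp3 β H3 R B B' e hRn hSB (fun r _ => hSB' r) hSe hw c 0 1 hc h0R h1R
        (by omega) hq
      exact ⟨fun q hqR => by rw [h1.1 q hqR, hq q hqR], h1.2⟩
    · by_cases hC : c % 3 = 1 ∧ c / 9 < m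
      · have hq : ∀ q ∈ R, (B q).count c = if q = 1 ∨ q = c / 9 + 2 then 1 else 0 := by
          intro q hq
          rw [cB q hq c]
          by_cases h0 : q = 0
          · rw [if_pos h0, if_neg hA, if_neg (by omega)]
          · rw [if_neg h0]
            by_cases h1 : q = 1
            · rw [if_pos h1, if_pos (Or.inr hC), if_pos (Or.inl h1)]
            · rw [if_neg h1]
              by_cases h2 : q = c / 9 + 2
              · rw [if_pos ⟨hC.1, by omega⟩, if_pos (Or.inr h2)]
              · rw [if_neg (by omega), if_neg (by omega)]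
        have h1 := hKp3 β H3 R B B' e hRn hSB (fun r _ => hSB' r) hSe hw c 1 (c / 9 + 2) hc h1R
          ((hRmem _).2 (by omega)) (by omega) hq
        exact ⟨fun q hqR => by rw [h1.1 q hqR, hq q hqR], h1.2⟩
      · have hz : ∀ q ∈ R, (B q).count c = 0 := by
          intro q hq
          rw [cB q hq c]
          have hq2 := (hRmem q).1 hq
          by_cases h0 : q = 0
          · rw [if_pos h0, if_neg hA]
          · rw [if_neg h0]
            by_cases h1 : q = 1
            · rw [if_pos h1, if_neg (by omega)]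
            · rw [if_neg h1, if_neg (by omega)]
        have hnot : c ∉ Bw R B := by
          rw [mem_bw]
          rintro ⟨r, hr, h1 | h1⟩
          · exact List.count_eq_zero.1 (hz r hr) h1
          · omega
        have h1 := RR.content H3 hw hnot
        rw [List.mem_append, not_or, mem_bw] at h1
        refine ⟨fun q hq => ?_, List.count_eq_zero.2 h1.2⟩
        rw [hz q hq, List.count_eq_zero]
        intro h2
        exact h1.1 ⟨q, hq, Or.inl h2⟩
  have he : e = [] := by
    rw [List.eq_nil_iff_forall_not_mem]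
    intro c hc
    exact List.count_eq_zero.1 (hcnt c (hSe c hc)).2 hc
  have hperm : ∀ q ∈ R, (B' q).Perm (B q) := by
    intro q hq
    rw [List.perm_iff_count]
    intro c
    by_cases hc : c % 3 = 2
    · rw [List.count_eq_zero.2 (fun h => hSB' q c h hc), List.count_eq_zero.2
        (fun h => hSB q hq c h hc)]
    · exact (hcnt c hc).1 q hq
  subst he
  rw [List.append_nil] at hw ⊢
  have key : ∀ k i j, i ≤ k → k < j → j ≤ 3 → ∃ h', G h' ∧
      (B' 0).flatMap (ph k i j) = (B 0).flatMap (ph k i j) ∧
        (B' 1).flatMap (ph k i j) = 0 :: (zs h' ++ [3]) := by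
    intro k i j hik hkj hj
    have hX := X_flatMap hB0p (k := k) (i := i) (j := j) (by omega) hj
    have himg : (Bw R B).flatMap (ph k i j) = Ew R (h k) ((B 0).flatMap (ph k i j)) := by
      rw [bw_flatMap]
      unfold Ew Eg
      apply bw_congr
      intro r hr
      by_cases h0 : r = 0
      · rw [if_pos h0, h0]
      · rw [if_neg h0]
        by_cases h1 : r = 1
        · rw [if_pos h1, h1, hB1]
          exact L3_flatMap h hik hkj hj
        · rw [if_neg h1]
          exact Z3_flatMap (hBr r hr (by omega)) (by omega)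
    have hr := hw.sub (ph k i j)
    rw [himg] at hr
    obtain ⟨h', hGh', he⟩ := hG.cl (h k) _ _ (hGh k (by omega)) hX hr
    rw [bw_flatMap] at he
    unfold Ew Eg at he
    have hE : ∀ r ∈ R, SFr (if r = 0 then (B 0).flatMap (ph k i j) else
        if r = 1 then 0 :: (zs h' ++ [3]) else [3 * (r - 2) + 1]) := by
      intro r hr c hc
      split_ifs at hc
      · rcases hX with hX | hX
        · rw [hX] at hc
          simp only [List.mem_cons, List.not_mem_nil, or_false] at hc
          omega
        · rw [hX] at hc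
          simp only [List.mem_cons, List.not_mem_nil, or_false] at hc
          omega
      · simp only [zs, List.mem_cons, List.mem_append, List.mem_map, List.not_mem_nil,
          or_false] at hc
        rcases hc with hc | ⟨a, _, hc⟩ | hc <;> omega
      · simp only [List.mem_cons, List.not_mem_nil, or_false] at hc
        omega
    have hU := hUni R (fun r => (B' r).flatMap (ph k i j)) (fun r => if r = 0 then
      (B 0).flatMap (ph k i j) else if r = 1 then 0 :: (zs h' ++ [3]) else [3 * (r - 2) + 1])
      [] [] hRn (fun r _ => ph_sfr (hSB' r)) hE (by intro c hc; simp at hc)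
      (by intro c hc; simp at hc) (by rw [he])
    have hU0 := hU.1 0 h0R
    have hU1 := hU.1 1 h1R
    exact ⟨h', hGh', by simpa using hU0, by simpa using hU1⟩
  -- block `0`
  have hB'0p : (B' 0).Perm [0, 3, 6, 9] := (hperm 0 h0R).trans hB0p
  have hidx : ∀ i j, i < j → j ≤ 3 →
      (((B 0).idxOf (3 * i) < (B 0).idxOf (3 * j) ↔
        (B' 0).idxOf (3 * i) < (B' 0).idxOf (3 * j)) ∧
      ((B 0).idxOf (3 * j) < (B 0).idxOf (3 * i) ↔
        (B' 0).idxOf (3 * j) < (B' 0).idxOf (3 * i))) := by
    intro i j hij hj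
    obtain ⟨h', _, h1, _⟩ := key i i j (le_refl i) hij hj
    have o1 := ord_X hB0p hij hj
    have o2 := ord_X hB'0p hij hj
    rw [h1] at o2
    rcases o1 with ⟨i1, e1⟩ | ⟨i1, e1⟩ <;> rcases o2 with ⟨i2, e2⟩ | ⟨i2, e2⟩
    · constructor <;> constructor <;> intro _ <;> omega
    · rw [e1] at e2
      simp at e2
    · rw [e1] at e2
      simp at e2
    · constructor <;> constructor <;> intro _ <;> omega
  have hB'0 : B' 0 = B 0 := by
    refine eq_of_idx (hB0p.nodup_iff.2 (by decide)) (hperm 0 h0R) ?_
    intro a ha b hb hab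
    rw [hB0p.mem_iff] at ha hb
    simp only [List.mem_cons, List.not_mem_nil, or_false] at ha hb
    obtain ⟨i, hi, rfl⟩ : ∃ i ≤ 3, a = 3 * i := ⟨a / 3, by omega, by omega⟩
    obtain ⟨j, hj, rfl⟩ : ∃ j ≤ 3, b = 3 * j := ⟨b / 3, by omega, by omega⟩
    rcases Nat.lt_or_ge i j with hij | hij
    · exact (hidx i j hij hj).1
    · exact (hidx j i (by omega) hi).2
  -- block `1`
  obtain ⟨h0, g0, -, e0⟩ := key 0 0 1 (by omega) (by omega) (by omega)
  obtain ⟨h1, g1, -, e1⟩ := key 1 1 2 (by omega) (by omega) (by omega)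
  obtain ⟨h2, g2, -, e2⟩ := key 2 2 3 (by omega) (by omega) (by omega)
  have hn1 : (B' 1).Nodup := by
    rw [List.nodup_iff_count_le_one]
    intro c
    rw [(hperm 1 h1R).count_eq, cB 1 h1R c, if_neg (by omega), if_pos rfl]
    split_ifs <;> omega
  have hB'1 : B' 1 = L3 (fun k => if k = 0 then h0 else if k = 1 then h1 else h2) := by
    refine main_block (m := m) hn1 ?_ ?_
    · intro c hc
      have h3 : 0 < (B 1).count c := by
        rw [← (hperm 1 h1R).count_eq]
        exact List.count_pos_iff.2 hc
      rw [cB 1 h1R c, if_neg (by omega), if_pos rfl] at h3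
      by_contra hcon
      rw [if_neg hcon] at h3
      omega
    · intro k hk
      interval_cases k
      · simpa using e0
      · simpa using e1
      · simpa using e2
  refine ⟨hs, fun k => if k = 0 then h0 else if k = 1 then h1 else h2, B', ?_, ?_, hB'1, ?_, rfl⟩
  · intro k hk
    interval_cases k
    · simpa using g0
    · simpa using g1
    · simpa using g2
  · rw [hB'0, hB0]
  · intro r hr h2
    exact (hperm r hr).trans (hBr r hr h2)

end Pool.Agent.MWD.H11
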