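import Pool.Agent.Helper31_MVD.PEF
import Pool.Agent.Helper11_MWD.KPF3

/-!
The row PEF of MVD (lemma N1, compound pins) without the hypothesis that `x ^ 2` is an isoterm.
-/

set_option autoImplicit false

namespace Pool.Agent.MWD.H11

open Pool.Agent.Helper14_MV Pool.Agent.Helper2_MV Pool.Agent.MVD Pool.Agent.MVD.H31

/-- PEF with `Iso3` only -/
def Pef3Stmt : Prop := ∀ β : FIC, ModF β → Iso3 β → ∀ (m : ℕ) (R : List ℕ)
  (G : List ℕ → Prop) (c0 : List ℕ), 1 ≤ m → R.Perm (List.range (m + 2)) → GOk β m R G → G c0 →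
    False

theorem le_FQ3 (kpf : Kpf3Stmt) {β : FIC} (H : Iso3 β) {m : ℕ} {R : List ℕ}
    {G : List ℕ → Prop} (hm1 : 1 ≤ m) (hR : R.Perm (List.range (m + 2))) (hG : GOk β m R G)
    (k : ℕ → ℕ) : β ≤ FQ R G k := by
  have key : ∀ (w w' : Word) (c : ℕ → Prop), β.r w w' → PQ R G c w → PQ R G c w' := by
    rintro w w' c hw ⟨s, hF, hc⟩
    have hr : RR β w.toList w'.toList := hw
    exact ⟨s, kpf β H m R G hm1 hR hG s _ _ hF hr, hc⟩
  intro u v huv c φ p q
  have h3 : β.r (p * φ u * q) (p * φ v * q) := β.mul (β.mul (β.refl p) (β.sub φ huv)) (β.refl q)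
  exact ⟨key _ _ _ h3, key _ _ _ (β.symm h3)⟩

/-- **PEF** -/
theorem pef3 (kpf : Kpf3Stmt) (stf : StfStmt) (uni : UniStmt) : Pef3Stmt := by
  intro β hm H m R G c0 hm1 hR hG hc0
  have p0 : ([1, 3, 0, 2] : List ℕ).Perm [0, 1, 2, 3] := by decide
  have p1 : ([2, 0, 3, 1] : List ℕ).Perm [0, 1, 2, 3] := by decide
  have p2 : ([0, 1, 2, 3] : List ℕ).Perm [0, 1, 2, 3] := List.Perm.refl _
  have p3 : ([3, 2, 1, 0] : List ℕ).Perm [0, 1, 2, 3] := by decide
  have hle : FQ R G kr ≤ FQ R G kt := by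
    intro u v h c φ p q
    have e : ∀ w : Word, PQ R G (fun j => kt j = c) w ↔
        (∃ d, (∃ j, kr j = d ∧ kt j = c) ∧ PQ R G (fun j => kr j = d) w) := by
      intro w
      constructor
      · rintro ⟨s, hb, hc⟩
        exact ⟨kr (cls s), ⟨_, rfl, hc⟩, s, hb, rfl⟩
      · rintro ⟨d, ⟨j, hj1, hj2⟩, s, hb, hd⟩
        refine ⟨s, hb, ?_⟩
        have : kt (cls s) = kt j := by
          have h3 : kr (cls s) = kr j := by rw [hj1]; exact hd
          have h4 : ∀ i, kt i = if kr i = 0 then 0 else 2 := by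
            intro i
            unfold kt kr
            by_cases h5 : i = 1
            · simp [h5]
            · by_cases h6 : i = 0
              · simp [h6]
              · simp [h5, h6]
          rw [h4, h4 j, h3]
        show kt (cls s) = c
        rw [this, hj2]
    rw [e, e]
    constructor
    · rintro ⟨d, hd, hP⟩
      exact ⟨d, hd, (h d φ p q).1 hP⟩
    · rintro ⟨d, hd, hP⟩
      exact ⟨d, hd, (h d φ p q).2 hP⟩
  have s20 := wf_rel stf hm1 hR hG.perm hc0 p2 p0 chk20 chk02 ks (by decide)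
  have s01 := wf_rel stf hm1 hR hG.perm hc0 p0 p1 chk01 chk10 kr (by decide)
  have s13 := wf_rel stf hm1 hR hG.perm hc0 p1 p3 chk13 chk31 ks (by decide)
  have s23 := wf_rel stf hm1 hR hG.perm hc0 p2 p3 chk23 chk32 kt (by decide)
  have hsup : (FIC.sup (FQ R G kr) (FQ R G ks)).r (wf R c0 [0, 1, 2, 3])
      (wf R c0 [3, 2, 1, 0]) := by
    have a1 := FIC.le_sup_right (FQ R G kr) (FQ R G ks) _ _ s20
    have a2 := FIC.le_sup_left (FQ R G kr) (FQ R G ks) _ _ s01
    have a3 := FIC.le_sup_right (FQ R G kr) (FQ R G ks) _ _ s13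
    exact FIC.trans _ (FIC.trans _ a1 a2) a3
  have hfin := hm (FQ R G kr) (FQ R G ks) (FQ R G kt)
    (le_FQ3 kpf H hm1 hR hG kr) (le_FQ3 kpf H hm1 hR hG ks)
    (le_FQ3 kpf H hm1 hR hG kt) hle _ _ hsup s23
  have hinv : ∀ w w' : Word, (FIC.sup (FQ R G kr)
      (FIC.inf (FQ R G ks) (FQ R G kt))).r w w' →
      PQ R G (fun j => j = 2) w → PQ R G (fun j => j = 2) w' := by
    intro w w' h
    induction h with
    | refl => exact id
    | tail _ h3 ih =>
      intro hw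
      obtain ⟨s, hs, hc⟩ := ih hw
      have hc2 : cls s = 2 := hc
      rcases h3 with h3 | h3
      · obtain ⟨s1, g1, g2⟩ := (FQ.keep h3 2).1 ⟨s, hs, by
          show kr _ = 2
          rw [hc2]; rfl⟩
        exact ⟨s1, g1, kr_two g2⟩
      · obtain ⟨h3s, h3t⟩ := h3
        obtain ⟨s1, g1, g2⟩ := (FQ.keep h3s 0).1 ⟨s, hs, by
          show ks _ = 0
          rw [hc2]; rfl⟩
        obtain ⟨s2, g3, g4⟩ := (FQ.keep h3t 2).1 ⟨s, hs, by
          show kt _ = 2
          rw [hc2]; rfl⟩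
        have hss := fam_uniq uni hR g1 g3
        subst hss
        exact ⟨s1, g1, ks_kt g2 g4⟩
  obtain ⟨s, g1, g2⟩ := hinv _ _ hfin ⟨[0, 1, 2, 3], fam_wf hc0 p2, by
    show cls _ = 2
    decide⟩
  have h4 := fam_uniq uni hR g1 (fam_wf hc0 p3)
  subst h4
  exact absurd g2 (by decide)

end Pool.Agent.MWD.H11
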