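import Pool.Agent.Helper38_MVD.FFC
import Pool.Agent.Helper11_MWD.PRP3

/-!
The row FFC of MVD (class c) without the hypothesis that `x ^ 2` is an isoterm.
-/

set_option autoImplicit false

namespace Pool.Agent.MWD.H11

open Pool.Agent.Helper14_MV Pool.Agent.Helper2_MV Pool.Agent.MVD Pool.Agent.MVD.H38
open Pool.Agent.MWD.H11.PRPc (Prp3Stmt)

/-- FFC with `Iso3` only -/
def Ffc3Stmt : Prop := ∀ β : FIC, ModF β → Iso3 β → S2 β → ¬ S1 β → ¬ S3 β → FF β

theorem lx03 {β : FIC} (hPrp : Prp3Stmt) (hM : ModF β) (h3 : Iso3 β)
    (hS3 : ¬ S3 β) (p q r : List ℕ) (x y : ℕ) :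
    RR β (p ++ x :: y :: (q ++ x :: ([] ++ y :: r)))
      (p ++ y :: x :: (q ++ x :: ([] ++ y :: r))) := by
  have hb0 : Bfr [2, 0, 1] 0 1 := ⟨[2], [], [], rfl⟩
  have hb2 : Bfr [2, 0, 1] 2 1 := ⟨[], [0], [], rfl⟩
  have hrg : rg β (Bfr [2, 0, 1] (0 + 2) 1) (Bfr [2, 0, 1] 0 1) :=
    ⟨fun _ _ => hS3, fun h _ => absurd hb2 h, fun _ h => absurd hb0 h, fun h _ => absurd hb2 h⟩
  have h := hPrp β hM h3 1 [2, 0, 1] [0] (by decide) (by decide)
    ⟨0, [], rfl, hrg⟩ ⟨0, [], rfl, hrg⟩
    (Or.inr (by
      intro e he
      obtain rfl : e = 0 := by omega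
      exact ⟨fun _ => hb0, fun _ => hb2⟩))
  have e1 : Ew [2, 0, 1] [0] [0, 3] = [1, 8, 0, 3, 2, 0, 1, 3, 5] := by decide
  have e2 : Ew [2, 0, 1] [0] [3, 0] = [1, 8, 3, 0, 2, 0, 1, 3, 5] := by decide
  rw [e1, e2] at h
  have h4 := h.sub (fun i => if i = 0 then [x] else if i = 3 then [y] else
    if i = 2 then q else [])
  have h5 := ((RR.refl (β := β) p).append h4).append (RR.refl (β := β) r)
  have e3 : (p ++ [1, 8, 0, 3, 2, 0, 1, 3, 5].flatMap (fun i => if i = 0 then [x] else
      if i = 3 then [y] else if i = 2 then q else [])) ++ r =
      p ++ x :: y :: (q ++ x :: ([] ++ y :: r)) := by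
    simp [List.flatMap_cons]
  have e4 : (p ++ [1, 8, 3, 0, 2, 0, 1, 3, 5].flatMap (fun i => if i = 0 then [x] else
      if i = 3 then [y] else if i = 2 then q else [])) ++ r =
      p ++ y :: x :: (q ++ x :: ([] ++ y :: r)) := by
    simp [List.flatMap_cons]
  rw [e3, e4] at h5
  exact h5

/-- the images of the letters of the chain -/
theorem ffc3 (hPrp : Prp3Stmt) (hIns : InsStmt) (hCtx : CtxStmt) : Ffc3Stmt := by
  intro β hM h3 hS2 _ hS3
  have hc2 := (hCtx β).2.1 hS2
  have main : ∀ (n : ℕ) (c : List ℕ), c.length = n → ∀ (p q r : List ℕ) (x y : ℕ),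
      Mult c (p ++ x :: y :: (q ++ x :: (c ++ y :: r))) →
        RR β (p ++ x :: y :: (q ++ x :: (c ++ y :: r)))
          (p ++ y :: x :: (q ++ x :: (c ++ y :: r))) := by
    intro n
    induction n using Nat.strong_induction_on with
    | _ n ih =>
      intro c hn p q r x y hm
      by_cases hxy : x = y
      · subst hxy; exact RR.refl _
      by_cases hx : x ∈ c
      · obtain ⟨c1, c2, rfl⟩ := List.append_of_mem hx
        have h := ih c2.length (by rw [← hn]; simp; omega) c2 rfl p (q ++ x :: c1) r x y
          (by
            have e : p ++ x :: y :: (q ++ x :: c1 ++ x :: (c2 ++ y :: r)) =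
              p ++ x :: y :: (q ++ x :: (c1 ++ x :: c2 ++ y :: r)) := by simp
            rw [e]
            intro a ha
            exact hm a (by simp [ha]))
        have e1 : p ++ x :: y :: (q ++ x :: c1 ++ x :: (c2 ++ y :: r)) =
          p ++ x :: y :: (q ++ x :: (c1 ++ x :: c2 ++ y :: r)) := by simp
        have e2 : p ++ y :: x :: (q ++ x :: c1 ++ x :: (c2 ++ y :: r)) =
          p ++ y :: x :: (q ++ x :: (c1 ++ x :: c2 ++ y :: r)) := by simp
        rw [e1, e2] at h
        exact h
      by_cases hy : y ∈ c
      · obtain ⟨c1, c2, rfl⟩ := List.append_of_mem hy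
        have h := ih c1.length (by rw [← hn]; simp) c1 rfl p q (c2 ++ y :: r) x y
          (by
            have e : p ++ x :: y :: (q ++ x :: (c1 ++ y :: (c2 ++ y :: r))) =
              p ++ x :: y :: (q ++ x :: (c1 ++ y :: c2 ++ y :: r)) := by simp
            rw [e]
            intro a ha
            exact hm a (by simp [ha]))
        have e1 : p ++ x :: y :: (q ++ x :: (c1 ++ y :: (c2 ++ y :: r))) =
          p ++ x :: y :: (q ++ x :: (c1 ++ y :: c2 ++ y :: r)) := by simp
        have e2 : p ++ y :: x :: (q ++ x :: (c1 ++ y :: (c2 ++ y :: r))) =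
          p ++ y :: x :: (q ++ x :: (c1 ++ y :: c2 ++ y :: r)) := by simp
        rw [e1, e2] at h
        exact h
      rcases lmo r c with hno | ⟨c1, v, c2, rfl, hv, hleft⟩
      · -- no letter of `c` occurs later
        by_cases hc0 : c = []
        · subst hc0
          exact lx03 hPrp hM h3 hS3 p q r x y
        have hnd : c.Nodup := by
          rw [List.nodup_iff_count_le_one]
          intro a
          by_contra hcon
          have ha : a ∈ c := by
            rw [← List.count_pos_iff]; omega
          obtain ⟨s, t, hst, hs⟩ := List.eq_append_cons_of_mem ha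
          have h4 := hno s a t hst
          rw [List.mem_append, not_or] at h4
          have h5 : c.count a = 1 := by
            rw [hst, List.count_append, List.count_cons_self, List.count_eq_zero.2 hs,
              List.count_eq_zero.2 h4.1]
          omega
        have hpq : ∀ a ∈ c, a ∈ p ∨ a ∈ q := by
          intro a ha
          have h4 := hm a ha
          obtain ⟨s, t, hst⟩ := List.append_of_mem ha
          have h5 := hno s a t hst
          rw [List.mem_append, not_or] at h5
          have hax : x ≠ a := fun h => hx (h ▸ ha)
          have hay : y ≠ a := fun h => hy (h ▸ ha)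
          have h6 : c.count a ≤ 1 := List.nodup_iff_count_le_one.1 hnd a
          rw [List.count_append, List.count_cons_of_ne hax, List.count_cons_of_ne hay,
            List.count_append, List.count_cons_of_ne hax, List.count_append,
            List.count_cons_of_ne hay, List.count_eq_zero.2 h5.2] at h4
          by_contra hcon
          rw [not_or] at hcon
          rw [List.count_eq_zero.2 hcon.1, List.count_eq_zero.2 hcon.2] at h4
          omega
        obtain ⟨R, g, M, hR, hR01, hw, hg0, hg3, hg, hk⟩ := hIns p q r c x y hnd hxy
          (fun a ha => by rcases hpq a ha with h | h <;> simp [h])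
        have hkt : ∀ e < c.length, Bfr R (e + 2) 1 := by
          intro e he
          exact (hk e he).2 (hpq _ (List.getElem_mem he))
        have hlen : 0 < c.length := List.length_pos_of_ne_nil hc0
        have hrg : ∀ e < c.length, rg β (Bfr R (e + 2) 1) (Bfr R 0 1) := by
          intro e he
          exact ⟨fun _ _ => hS3, fun h _ => absurd (hkt e he) h, fun _ h => absurd hR01 h,
            fun h _ => absurd (hkt e he) h⟩
        have h := hPrp β hM h3 c.length R (List.range c.length) hR (List.Perm.refl _)
          ⟨0, (List.range (c.length - 1)).map Nat.succ, by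
            have : c.length = (c.length - 1) + 1 := by omega
            rw [this, List.range_succ_eq_map]
            simp, hrg 0 hlen⟩
          ⟨c.length - 1, List.range (c.length - 1), by
            have : c.length = (c.length - 1) + 1 := by omega
            rw [this, List.range_succ]
            simp, hrg _ (by omega)⟩
          (Or.inr (fun e he => ⟨fun _ => hR01, fun _ => hkt e he⟩))
        have h4 := (RR.refl (β := β) M).append (h.sub g)
        rw [Ew, Ew, ← hw, ← hw] at h4
        have e0 : (0 :: (zs (List.range c.length) ++ [3])).flatMap g = x :: (c ++ [y]) := by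
          rw [List.flatMap_cons, List.flatMap_append, zsg g c hg, hg0]
          simp [hg3]
        have e1 : ([0, 3] : List ℕ).flatMap g = [x, y] := by simp [hg0, hg3]
        have e2 : ([3, 0] : List ℕ).flatMap g = [y, x] := by simp [hg0, hg3]
        rw [e0, e1, e2] at h4
        have e3 : p ++ ([x, y] ++ (q ++ (x :: (c ++ [y]) ++ r))) =
            p ++ x :: y :: (q ++ x :: (c ++ y :: r)) := by simp
        have e4 : p ++ ([y, x] ++ (q ++ (x :: (c ++ [y]) ++ r))) =
            p ++ y :: x :: (q ++ x :: (c ++ y :: r)) := by simp
        rw [e3, e4] at h4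
        exact h4
      · -- the leftmost letter which occurs later is moved out
        have hbef : ∀ u ∈ c1, u ∈ p ∨ u ∈ q := by
          intro u hu
          have h4 := hm u (by simp [hu])
          obtain ⟨s, t, hst, hs⟩ := List.eq_append_cons_of_mem hu
          have h5 := hleft s u t hst
          have hax : x ≠ u := fun h => hx (by rw [h]; simp [hu])
          have hay : y ≠ u := fun h => hy (by rw [h]; simp [hu])
          simp only [List.mem_append, List.mem_cons, not_or] at h5
          obtain ⟨⟨h51, h52, h53⟩, h54⟩ := h5
          have h6 : c1.count u = 1 := by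
            rw [hst, List.count_append, List.count_cons_self, List.count_eq_zero.2 hs,
              List.count_eq_zero.2 h51]
          rw [List.count_append, List.count_cons_of_ne hax, List.count_cons_of_ne hay,
            List.count_append, List.count_cons_of_ne hax, List.count_append, List.count_append,
            h6, List.count_cons_of_ne (fun h => h52 h.symm), List.count_eq_zero.2 h53,
            List.count_cons_of_ne hay, List.count_eq_zero.2 h54] at h4
          by_contra hcon
          rw [not_or] at hcon
          rw [List.count_eq_zero.2 hcon.1, List.count_eq_zero.2 hcon.2] at h4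
          omega
        have hvQ : v ∈ c2 ++ y :: r := by
          rw [List.mem_append] at hv
          rcases hv with hv | hv <;> simp [hv]
        have ha := mvl hc2 (c2 ++ y :: r) v hvQ (x :: c1) (p ++ x :: y :: q) (by
          intro u hu
          rcases List.mem_cons.1 hu with rfl | hu
          · simp
          · rcases hbef u hu with h | h <;> simp [h])
        have hb := mvl hc2 (c2 ++ y :: r) v hvQ (x :: c1) (p ++ y :: x :: q) (by
          intro u hu
          rcases List.mem_cons.1 hu with rfl | hu
          · simp
          · rcases hbef u hu with h | h <;> simp [h])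
        have hcc := ih (c1 ++ c2).length (by rw [← hn]; simp) (c1 ++ c2) rfl p (q ++ [v]) r x y
          (by
            intro a ha'
            have h4 := hm a (by
              rw [List.mem_append] at ha'
              rcases ha' with h | h <;> simp [h])
            have hperm : (p ++ x :: y :: (q ++ x :: (c1 ++ v :: c2 ++ y :: r))).Perm
                (p ++ x :: y :: (q ++ [v] ++ x :: (c1 ++ c2 ++ y :: r))) := by
              rw [List.perm_iff_count]
              intro b
              simp only [List.count_append, List.count_cons, List.count_nil]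
              omega
            rw [hperm.count_eq] at h4
            exact h4)
        have e1 : p ++ x :: y :: q ++ (x :: c1 ++ v :: (c2 ++ y :: r)) =
            p ++ x :: y :: (q ++ x :: (c1 ++ v :: c2 ++ y :: r)) := by simp
        have e2 : p ++ x :: y :: q ++ v :: (x :: c1 ++ (c2 ++ y :: r)) =
            p ++ x :: y :: (q ++ [v] ++ x :: (c1 ++ c2 ++ y :: r)) := by simp
        have e3 : p ++ y :: x :: q ++ (x :: c1 ++ v :: (c2 ++ y :: r)) =
            p ++ y :: x :: (q ++ x :: (c1 ++ v :: c2 ++ y :: r)) := by simp
        have e4 : p ++ y :: x :: q ++ v :: (x :: c1 ++ (c2 ++ y :: r)) =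
            p ++ y :: x :: (q ++ [v] ++ x :: (c1 ++ c2 ++ y :: r)) := by simp
        rw [e1, e2] at ha
        rw [e3, e4] at hb
        exact rtrans ha (rtrans hcc hb.symm)
  intro p q c r x y hm
  exact main c.length c rfl p q r x y hm

end Pool.Agent.MWD.H11
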