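import Pool.Agent.Helper11_MWD.N2T
import Pool.Agent.Helper11_MWD.FFC3
import Pool.Agent.Helper10_MVD.LIN
import Pool.Agent.Helper31_MVD.DEC
import Pool.Agent.Helper21_MVD.UNI
import Pool.Agent.Helper66_MVD.FAC
import Pool.Agent.Helper27_MVD.CTX
import Pool.Agent.Helper6_MVD.TRC
import Pool.Agent.Helper97_MVD.INS
import Pool.Agent.Helper47_MVD.STF
import Pool.Agent.Helper62_MVD.ORD
import Pool.Agent.Helper81_MVD.MIR

/-!
The theorems of MVD with `Iso3` only (`x ^ 2` need not be an isoterm), without hypotheses.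
-/

set_option autoImplicit false

namespace Pool.Agent.MWD.H11

open Pool.Agent.Helper14_MV Pool.Agent.Helper2_MV Pool.Agent.MVD
open Pool.Agent.MWD.H11.PRPc (Prp3Stmt prp3)

/-- the decomposition into blocks -/
theorem decF : DecStmt := Pool.Agent.MVD.H31.dec Pool.Agent.MVD.H10.lin

theorem uniF : UniStmt := Pool.Agent.MVD.H21.uni

theorem facF : FacStmt := Pool.Agent.MVD.H66.fac

theorem ctxF : CtxStmt := Pool.Agent.MVD.H27.ctx

theorem insF : InsStmt := Pool.Agent.MVD.H97.ins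

theorem stfF : StfStmt := Pool.Agent.MVD.H47.stf uniF facF

theorem shpF : Shp3Stmt := shp3 decF kp3 kpl3

/-- **Lemma N2, thin classes.** -/
theorem n2tF : N2tStmt := n2t shpF facF

theorem kpfF : Kpf3Stmt := kpf3 decF kp3 uniF

theorem pefF : Pef3Stmt := pef3 kpfF stfF uniF

/-- **Compound pins**: `E(c)` -/
theorem prpF : Prp3Stmt :=
  prp3 pefF decF kp3 Pool.Agent.MVD.H62.ord Pool.Agent.MVD.H6.trc ctxF

/-- class c -/
theorem ffcF : Ffc3Stmt := ffc3 prpF insF ctxF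

/-- class c, mirror image -/
theorem zzcF : ∀ β : FIC, ModF β → Iso3 β → S2 β → ¬ S1 β → ¬ S3 β → ZZ β := by
  intro β hM h3 hs2 hs1 hs3
  obtain ⟨-, m1, -, m3, e1, e2, e3, -, -, -, -, -, eFF, -, -, -⟩ := Pool.Agent.MVD.H81.mir β
  exact eFF.1 (ffcF (mir β) (m1 hM) (m3 h3) (e2.2 hs2) (fun h => hs3 (e1.1 h))
    (fun h => hs1 (e3.1 h)))

end Pool.Agent.MWD.H11
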