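import Pool.Agent.Helper11_MWD.SHP3
import Pool.Agent.Helper40_MVD.FCT
import Pool.Agent.Helper48_MVD.PWS
import Pool.Agent.Helper40_MVD.KEY
import Pool.Agent.Helper10_MVD.PN2

/-!
Lemma N2 of MVD (no thin rigid word) without the hypothesis that `x ^ 2` is an isoterm: not all
words equivalent to `P y z_0 … z_(m-1) y Q` have exactly two letters `y` and all letters `z_e`
between them.
-/

set_option autoImplicit false

namespace Pool.Agent.MWD.H11

open Pool.Agent.Helper14_MV Pool.Agent.Helper2_MV Pool.Agent.MVD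

/-- N2 with `Iso3` only -/
def N2tStmt : Prop := ∀ β : FIC, ModF β → Iso3 β → ∀ (P Q : List ℕ) (m : ℕ), 1 ≤ m →
  (P ++ Q).Perm (List.range m) →
    ∃ w', RR β (bw P Q m) w' ∧ ¬ (w'.count 0 = 2 ∧ ∀ e < m, Btw 0 (3 * e + 1) w')

section
open Pool.Agent.MVD.H40

/-- **FCT** -/
theorem fct3 : ∀ β : FIC, ∀ (P Q : List ℕ) (m : ℕ), 1 ≤ m →
  (P ++ Q).Perm (List.range m) → HH β P Q m → ∀ (g : Equiv.Perm (Fin 4)) (L : List ℕ),
    SL β P Q m g L →
      (∀ j : Fin 4, ∀ k, (k = j.val ∨ k = j.val + 1) → ∀ e < m,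
        Btw (3 * (g j).val) (3 * (5 * e + k) + 1) L) ∧
      (∀ j : Fin 4, ∀ k < 5, ¬ (k = j.val ∨ k = j.val + 1) → ∃ e < m,
        ¬ Btw (3 * (g j).val) (3 * (5 * e + k) + 1) L) := by
  intro β P Q m hm _ hH g L hSL
  obtain ⟨hL, hI⟩ := hSL
  have hL3 : ∀ c ∈ L, c % 3 ≠ 2 := by
    intro c hc
    rcases mem_perm hL hc with ⟨l', _, rfl⟩ | ⟨e, he, k', hk', rfl⟩ <;> omega
  have hA : ∀ j : Fin 4, ∀ k, (k = j.val ∨ k = j.val + 1) → ∀ e < m,
      Btw (3 * (g j).val) (3 * (5 * e + k) + 1) L := by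
    intro j k hk
    have hj := j.isLt
    exact fct_a hH hL3 ((hI j k (by omega)).2 hk)
  refine ⟨hA, ?_⟩
  intro j k hk5 hk
  by_contra hcon
  push Not at hcon
  obtain ⟨j2, hj2⟩ : ∃ j2 : Fin 4, k = j2.val ∨ k = j2.val + 1 := by
    by_cases h : k < 4
    · exact ⟨⟨k, h⟩, Or.inl rfl⟩
    · exact ⟨⟨3, by norm_num⟩, Or.inr (by simp; omega)⟩
  have h1 := flat_form hL (g j).isLt hk5 hm hcon
  have h2 := flat_form hL (g j2).isLt hk5 hm (hA j2 k hj2)
  have h3 : Inc β P Q m L (g j2).val k := (hI j2 k hk5).2 hj2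
  have h4 : Inc β P Q m L (g j).val k := by
    unfold Inc at h3 ⊢
    rw [h1, ← h2]
    exact h3
  exact hk ((hI j k hk5).1 h4)

end

section
open Pool.Agent.MVD.H48

theorem pws3 : ∀ β : FIC, ∀ (P Q : List ℕ) (m : ℕ), 1 ≤ m →
  (P ++ Q).Perm (List.range m) → HH β P Q m → ∀ g : Equiv.Perm (Fin 4),
    SS β P Q m g (pw P Q m g) := by
  intro β P Q m hm _ hH g
  refine ⟨Lg m g, rfl, lg_perm m g, ?_⟩
  intro j k hk
  have e0 : (Lg m g).flatMap (pj (g j).val k) =
      (if (0 : Fin 4) = j then [0] else []) ++ (if 0 = k then zs (List.range m) else []) ++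
      (if (1 : Fin 4) = j then [0] else []) ++ (if 1 = k then zs (List.range m) else []) ++
      ((if (0 : Fin 4) = j then [0] else []) ++ (if (2 : Fin 4) = j then [0] else [])) ++
      (if 2 = k then zs (List.range m) else []) ++
      ((if (1 : Fin 4) = j then [0] else []) ++ (if (3 : Fin 4) = j then [0] else [])) ++
      (if 3 = k then zs (List.range m) else []) ++
      (if (2 : Fin 4) = j then [0] else []) ++ (if 4 = k then zs (List.range m) else []) ++
      (if (3 : Fin 4) = j then [0] else []) := by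
    unfold Lg
    simp only [List.flatMap_append, List.flatMap_cons, List.flatMap_nil, List.append_nil, y_pj,
      cc_pj m _ k 0 (by norm_num), cc_pj m _ k 1 (by norm_num), cc_pj m _ k 2 (by norm_num),
      cc_pj m _ k 3 (by norm_num), cc_pj m _ k 4 (by norm_num)]
  unfold Inc
  rw [e0]
  constructor
  · intro h
    by_contra hcon
    refine not_inc hm hH (L := _) ?_ h
    fin_cases j <;> interval_cases k <;> simp at hcon ⊢
  · intro h
    have e1 : ∀ L, L = 0 :: (zs (List.range m) ++ [0]) → RR β (Wm P Q L) (bw P Q m) := by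
      rintro L rfl
      exact RR.refl _
    apply e1
    fin_cases j <;> interval_cases k <;> simp at h ⊢

end

section
open Pool.Agent.MVD.H40

/-- **KEY** -/
theorem key3 (hFac : FacStmt) : ∀ β : FIC, ∀ (P Q : List ℕ) (m : ℕ), 1 ≤ m →
  (P ++ Q).Perm (List.range m) → HH β P Q m → ∀ (g h : Equiv.Perm (Fin 4)) (φ : ℕ → List ℕ)
    (M N : List ℕ), SS β P Q m h (M ++ ((pw P Q m g).flatMap φ ++ N)) →
      (∀ j : Fin 4, φ (3 * j.val) = []) ∨
        ∀ s : Equiv.Perm (Fin 4),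
          M ++ ((pw P Q m (g * s)).flatMap φ ++ N) = pw P Q m (h * s) := by
  intro β P Q m hm hPQ hH g h φ M N hS
  obtain ⟨L, hw, hSL⟩ := hS
  obtain ⟨F1, F2⟩ := fct3 β P Q m hm hPQ hH h L hSL
  by_cases hne : ∀ j : Fin 4, φ (3 * j.val) = []
  · exact Or.inl hne
  · right
    push Not at hne
    intro s
    exact Cx.fin ⟨hFac, hm, hPQ, hSL.1, hw, F1, F2, hne⟩ s

end

section
open Pool.Agent.MVD.H10

theorem n2t (hShp : Shp3Stmt) (hFac : FacStmt) : N2tStmt := by
  intro β hm H3 P Q m h1m hPQ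
  by_contra hcon
  have hHH : HH2 β P Q m := by
    intro w' hw'
    by_contra hn
    exact hcon ⟨w', hw', hn⟩
  have hS := hShp β H3 P Q m h1m hPQ hHH
  have hP := pws3 β P Q m h1m hPQ hHH.hh
  have hK := key3 hFac β P Q m h1m hPQ hHH.hh
  have hle : TH β P Q m T1 ≤ TH β P Q m T2 := by
    have key : ∀ u v : Word, (∀ (g : Equiv.Perm (Fin 4)), PPn β P Q m T1 g u ↔
        PPn β P Q m T1 g v) → ∀ g, PPn β P Q m T2 g u → PPn β P Q m T2 g v := by
      intro u v h g hu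
      obtain ⟨k, hk, hs⟩ := hu
      have h1 : PPn β P Q m T1 (g * k) u := ⟨1, by decide +kernel, by rw [mul_one]; exact hs⟩
      obtain ⟨k', hk', hs'⟩ := (h (g * k)).1 h1
      exact ⟨k * k', T2_mul k hk k' (T1_sub k' hk'), by rw [← mul_assoc]; exact hs'⟩
    intro u v h g φ a b
    exact ⟨key _ _ (fun g' => h g' φ a b) g, key _ _ (fun g' => (h g' φ a b).symm) g⟩
  have r1 : RR (TH β P Q m TK) (pw P Q m 1) (pw P Q m gc) := by
    have := pw_rel hP hK TK_mul 1 gc gc_TK (TK_inv _ gc_TK)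
    rwa [one_mul] at this
  have r2 : RR (TH β P Q m T1) (pw P Q m gc) (pw P Q m (gc * ga)) :=
    pw_rel hP hK T1_mul gc ga ga_T1 (T1_inv _ ga_T1)
  have r3 : RR (TH β P Q m TK) (pw P Q m (gc * ga)) (pw P Q m (gc * ga * gc⁻¹)) :=
    pw_rel hP hK TK_mul (gc * ga) gc⁻¹ (TK_inv _ gc_TK) (by rw [inv_inv]; exact gc_TK)
  have r4 : RR (TH β P Q m T2) (pw P Q m 1) (pw P Q m (gc * ga * gc⁻¹)) := by
    have := pw_rel hP hK T2_mul 1 (gc * ga * gc⁻¹) gs_T2 (T2_inv _ gs_T2)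
    rwa [one_mul] at this
  have hsup : (FIC.sup (TH β P Q m T1) (TH β P Q m TK)).r (FreeMonoid.ofList (pw P Q m 1))
      (FreeMonoid.ofList (pw P Q m (gc * ga * gc⁻¹))) := by
    have a1 := FIC.le_sup_right (TH β P Q m T1) (TH β P Q m TK) _ _ r1
    have a2 := FIC.le_sup_left (TH β P Q m T1) (TH β P Q m TK) _ _ r2
    have a3 := FIC.le_sup_right (TH β P Q m T1) (TH β P Q m TK) _ _ r3
    exact FIC.trans _ (FIC.trans _ a1 a2) a3
  have hfin := hm (TH β P Q m T1) (TH β P Q m TK) (TH β P Q m T2)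
    (le_TH T1 hS) (le_TH TK hS) (le_TH T2 hS) hle _ _ hsup r4
  have hinv : ∀ w w' : Word, (FIC.sup (TH β P Q m T1)
      (FIC.inf (TH β P Q m TK) (TH β P Q m T2))).r w w' →
      PPn β P Q m T1 1 w → PPn β P Q m T1 1 w' := by
    intro w w' h
    induction h with
    | refl => exact id
    | tail _ h3 ih =>
      intro hw
      have hw' := ih hw
      rcases h3 with h3 | h3
      · exact (TH.keep h3 1).1 hw'
      · obtain ⟨h3s, h3t⟩ := h3
        obtain ⟨k, hk, hs⟩ := hw'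
        obtain ⟨k1, hk1, hs1⟩ := (TH.keep h3s (1 * k)).1 ⟨1, by decide +kernel, by
          rw [mul_one]; exact hs⟩
        obtain ⟨k2, hk2, hs2⟩ := (TH.keep h3t (1 * k)).1 ⟨1, by decide +kernel, by
          rw [mul_one]; exact hs⟩
        have e1 : k1 = k2 := mul_left_cancel (ss_inj hs1 hs2)
        have e2 : k1 = 1 := T_int k1 hk1 (by rw [e1]; exact hk2)
        rw [e2, mul_one] at hs1
        exact ⟨k, hk, hs1⟩
  obtain ⟨k, hk, hs⟩ := hinv _ _ hfin ⟨1, by decide +kernel, by rw [mul_one]; exact hP 1⟩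
  have e := ss_inj hs (hP (gc * ga * gc⁻¹))
  rw [one_mul] at e
  exact gs_T1 (e ▸ hk)

end

end Pool.Agent.MWD.H11
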