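import Pool.Agent.Helper11_MWD.KP3
import Pool.Agent.Helper48_MVD.KPL
import Pool.Agent.Helper21_MVD.SHP

/-!
The rows KPL and SHP of MVD without the hypothesis that `x ^ 2` is an isoterm: the letter `y`
occurs exactly twice in the words of the class.
-/

set_option autoImplicit false

namespace Pool.Agent.MWD.H11

open Pool.Agent.Helper14_MV Pool.Agent.Helper2_MV Pool.Agent.MVD

/-- the class of `P y z_0 … z_(m-1) y Q` consists of words with exactly two letters `y` and all
letters `z_e` between them -/
def HH2 (β : FIC) (P Q : List ℕ) (m : ℕ) : Prop :=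
  ∀ w', RR β (bw P Q m) w' → w'.count 0 = 2 ∧ ∀ e < m, Btw 0 (3 * e + 1) w'

theorem HH2.hh {β : FIC} {P Q : List ℕ} {m : ℕ} (h : HH2 β P Q m) : HH β P Q m :=
  fun w' hw => (h w' hw).2

/-- KPL with `Iso3` only, the number of the letters is given -/
def Kpl3Stmt : Prop := ∀ β : FIC, Iso3 β → ∀ (R : List ℕ) (B B' : ℕ → List ℕ) (e : List ℕ),
  R.Nodup → (∀ r ∈ R, SFr (B r)) → (∀ r ∈ R, SFr (B' r)) → SFr e →
    RR β (Bw R B) (Bw R B' ++ e) → ∀ (c r : ℕ), c % 3 ≠ 2 → r ∈ R →
      (Bw R B' ++ e).count c = 2 →
      (∀ q ∈ R, (B q).count c = if q = r then 2 else 0) →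
        ((∃ s ∈ R, (∀ q ∈ R, (B' q).count c = if q = s then 2 else 0) ∧ (s = r ∨ SQ β)) ∧
            e.count c = 0) ∨
          ((∀ q ∈ R, (B' q).count c = 0) ∧ e.count c = 2 ∧ SQ β)

/-- SHP with `Iso3` only -/
def Shp3Stmt : Prop := ∀ β : FIC, Iso3 β → ∀ (P Q : List ℕ) (m : ℕ), 1 ≤ m →
  (P ++ Q).Perm (List.range m) → HH2 β P Q m → ∀ (g : Equiv.Perm (Fin 4)) (w w' : List ℕ),
    SS β P Q m g w → RR β w w' → SS β P Q m g w'

section
open Pool.Agent.MVD.H48
open Pool.Agent.MVD.H77 (count_bw)

theorem kpl3 : Kpl3Stmt := by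
  intro β h3 R B B' e hR hB hB' he hRR c r hc hr hcnt2 hcount
  set f : ℕ → ℕ := fun q => (B q).count c with hf
  set f' : ℕ → ℕ := fun q => (B' q).count c with hf'
  have hfs : ∀ q ∈ R, f q = if q = r then 2 else 0 := hcount
  have hnil : SFr ([] : List ℕ) := fun x hx => absurd hx (by simp)
  -- the projection to `c` and one separator
  have hpr : ∀ P q S, R = P ++ q :: S →
      RR β (List.replicate (((P ++ [q]).map f).sum) c ++ (3 * q + 2) ::
          List.replicate ((S.map f).sum) c)
        (List.replicate (((P ++ [q]).map f').sum) c ++ (3 * q + 2) ::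
          List.replicate ((S.map f').sum + e.count c) c) := by
    intro P q S hPS
    subst hPS
    have h4 := hRR.filter (fun i => i == c || i == 3 * q + 2)
    rw [proj hc B' P S e hB' he hR] at h4
    have h5 := proj hc B P S [] hB hnil hR
    rw [List.append_nil] at h5
    rw [h5] at h4
    simpa using h4
  -- totals
  have hsum : (R.map f').sum + e.count c = 2 := by
    rw [List.count_append, count_bw hc] at hcnt2
    exact hcnt2
  -- the numbers before a separator in `w`
  have hw : ∀ P q S, R = P ++ q :: S →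
      (((P ++ [q]).map f).sum = 2 ∧ (S.map f).sum = 0 ∧ r ∈ P ++ [q]) ∨
      (((P ++ [q]).map f).sum = 0 ∧ (S.map f).sum = 2 ∧ r ∉ P ++ [q]) := by
    intro P q S hPS
    have hn : ((P ++ [q]) ++ S).Nodup := by
      have : (P ++ [q]) ++ S = R := by rw [hPS]; simp
      rw [this]; exact hR
    have h4 := sum_ind (P ++ [q]) (List.nodup_append.1 hn).1 (fun x hx => hfs x (by
      rw [hPS]
      rcases List.mem_append.1 hx with h | h
      · simp [h]
      · simp at h; simp [h]))
    have h5 := sum_ind S (List.nodup_append.1 hn).2.1 (fun x hx => hfs x (by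
      rw [hPS]; simp [hx]))
    have hmem : r ∈ P ++ [q] ∨ r ∈ S := by
      rw [hPS] at hr
      rcases List.mem_append.1 hr with h | h
      · left; simp [h]
      · rcases List.mem_cons.1 h with h | h
        · left; simp [h]
        · right; exact h
    have hdis : r ∈ P ++ [q] → r ∉ S := fun h h' => (List.nodup_append.1 hn).2.2 r h r h' rfl
    rw [h4, h5]
    rcases hmem with h | h
    · left
      exact ⟨by rw [if_pos h], by rw [if_neg (hdis h)], h⟩
    · right
      have h' : r ∉ P ++ [q] := fun hh => hdis hh h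
      exact ⟨by rw [if_neg h'], by rw [if_pos h], h'⟩
  -- no separator between the letters of `w'`
  have hne1 : ∀ P q S, R = P ++ q :: S → ((P ++ [q]).map f').sum ≠ 1 := by
    intro P q S hPS h1
    have h4 := hpr P q S hPS
    have h5 : (S.map f').sum + e.count c = 1 := by
      have h6 := hsum
      rw [hPS] at h6
      simp only [List.map_append, List.sum_append, List.map_cons, List.sum_cons, List.map_nil,
        List.sum_nil] at h1 h6 ⊢
      omega
    have hne : c ≠ 3 * q + 2 := by omega
    rw [h1, h5] at h4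
    have h6 := iso_aba h3 hne (RR.symm h4)
    rcases hw P q S hPS with h7 | h7
    · rw [h7.1, h7.2.1] at h6
      simp at h6
      omega
    · rw [h7.1, h7.2.1] at h6
      simp at h6
      omega
  have hmain := comb R hR hsum hne1
  -- a separator with different numbers
  have hsq : ∀ P q S, R = P ++ q :: S →
      ((P ++ [q]).map f).sum ≠ ((P ++ [q]).map f').sum → SQ β := by
    intro P q S hPS hne
    have h4 := hpr P q S hPS
    have h5 := hne1 P q S hPS
    have h6 := hsum
    have hcq : c ≠ 3 * q + 2 := by omega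
    have h8 : ((P ++ [q]).map f').sum + ((S.map f').sum + e.count c) = 2 := by
      rw [hPS] at h6
      simp only [List.map_append, List.sum_append, List.map_cons, List.sum_cons, List.map_nil,
        List.sum_nil] at h6 ⊢
      omega
    rcases hw P q S hPS with h7 | h7
    · have h9 : ((P ++ [q]).map f').sum = 0 := by omega
      have h10 : (S.map f').sum + e.count c = 2 := by omega
      rw [h7.1, h7.2.1, h9, h10] at h4
      exact sq_of hcq (by simpa using h4)
    · have h9 : ((P ++ [q]).map f').sum = 2 := by omega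
      have h10 : (S.map f').sum + e.count c = 0 := by omega
      rw [h7.1, h7.2.1, h9, h10] at h4
      exact sq_of hcq (RR.symm (by simpa using h4))
  obtain ⟨P, S, hPS⟩ := List.append_of_mem hr
  rcases hmain with ⟨⟨s, hsR, hs⟩, hn⟩ | ⟨h0, hn⟩
  · left
    refine ⟨⟨s, hsR, hs, ?_⟩, hn⟩
    by_cases hsr : s = r
    · exact Or.inl hsr
    · right
      have hcases : s ∈ P ∨ s ∉ P := em _
      rcases hcases with hsP | hsP
      · obtain ⟨P1, P2, hP12⟩ := List.append_of_mem hsP
        have hR2 : R = P1 ++ s :: (P2 ++ r :: S) := by rw [hPS, hP12]; simp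
        refine hsq P1 s (P2 ++ r :: S) hR2 ?_
        have hn2 : ((P1 ++ [s]) ++ (P2 ++ r :: S)).Nodup := by
          have : (P1 ++ [s]) ++ (P2 ++ r :: S) = R := by rw [hR2]; simp
          rw [this]; exact hR
        have hrn : r ∉ P1 ++ [s] := fun h =>
          (List.nodup_append.1 hn2).2.2 r h r (by simp) rfl
        have h4 : ((P1 ++ [s]).map f).sum = 0 := by
          rcases hw P1 s _ hR2 with h | h
          · exact absurd h.2.2 hrn
          · exact h.1
        have h5 := sum_ind (f := f') (s := s) (P1 ++ [s]) (List.nodup_append.1 hn2).1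
          (fun x hx => hs x (by
            rw [hR2]
            rcases List.mem_append.1 hx with h | h
            · simp [h]
            · simp at h; simp [h]))
        rw [h4, h5]
        simp
      · refine hsq P r S hPS ?_
        have hn2 : ((P ++ [r]) ++ S).Nodup := by
          have : (P ++ [r]) ++ S = R := by rw [hPS]; simp
          rw [this]; exact hR
        have h4 : ((P ++ [r]).map f).sum = 2 := by
          rcases hw P r _ hPS with h | h
          · exact h.1
          · exact absurd (by simp) h.2.2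
        have h5 := sum_ind (f := f') (s := s) (P ++ [r]) (List.nodup_append.1 hn2).1
          (fun x hx => hs x (by
            rw [hPS]
            rcases List.mem_append.1 hx with h | h
            · simp [h]
            · simp at h; simp [h]))
        rw [h4, h5, if_neg (by simp [hsP, hsr])]
        omega
  · right
    refine ⟨h0, hn, ?_⟩
    refine hsq P r S hPS ?_
    have h4 : ((P ++ [r]).map f).sum = 2 := by
      rcases hw P r _ hPS with h | h
      · exact h.1
      · exact absurd (by simp) h.2.2
    have h5 : ((P ++ [r]).map f').sum = 0 := by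
      rw [List.sum_eq_zero_iff]
      intro x hx
      obtain ⟨y, hy, rfl⟩ := List.mem_map.1 hx
      refine h0 y ?_
      rw [hPS]
      rcases List.mem_append.1 hy with h | h
      · simp [h]
      · simp at h; simp [h]
    rw [h4, h5]
    omega

end

section
open Pool.Agent.MVD.H21

theorem count_pj (l k : ℕ) (w : List ℕ) : (w.flatMap (pj l k)).count 0 = w.count (3 * l) := by
  induction w with
  | nil => rfl
  | cons c w ih =>
    rw [List.flatMap_cons, List.count_append, ih, List.count_cons]
    by_cases h : c = 3 * l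
    · subst h
      rw [pj_y, if_pos rfl]
      simp [Nat.add_comm]
    · have h1 : (pj l k c).count 0 = 0 := by
        rw [List.count_eq_zero]
        intro h2
        exact h (pj_zero h2)
      rw [h1, if_neg (by simpa using h)]
      omega

theorem shp3 (dec : DecStmt) (kp2 : Kp3Stmt) (kpl : Kpl3Stmt) : Shp3Stmt := by
  intro β H3 P Q m hm hPQ hHH g w w' hw hww'
  obtain ⟨L, rfl, hL, hInc⟩ := hw
  let R : List ℕ := (star P).map (fun e => e + 1) ++ 0 :: (star Q).map (fun e => e + 1)
  let B : ℕ → List ℕ := fun r => if r = 0 then L else [3 * (r - 1) + 1]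
  have hWm : Wm (star P) (star Q) L = Bw R B := rfl
  have hB0 : B 0 = L := rfl
  have hBs : ∀ E, B (E + 1) = [3 * E + 1] := fun E => rfl
  have hRm : ∀ r, r ∈ R ↔ r = 0 ∨ ∃ E < 5 * m, r = E + 1 := by
    intro r
    show r ∈ (star P).map (fun e => e + 1) ++ 0 :: (star Q).map (fun e => e + 1) ↔ _
    rw [List.mem_append, List.mem_cons, List.mem_map, List.mem_map]
    constructor
    · rintro (⟨E, hE, rfl⟩ | rfl | ⟨E, hE, rfl⟩)
      · exact Or.inr ⟨E, (mem_range5 hPQ E).1 (Or.inl hE), rfl⟩
      · exact Or.inl rfl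
      · exact Or.inr ⟨E, (mem_range5 hPQ E).1 (Or.inr hE), rfl⟩
    · rintro (rfl | ⟨E, hE, rfl⟩)
      · exact Or.inr (Or.inl rfl)
      · rcases (mem_range5 hPQ E).2 hE with h | h
        · exact Or.inl ⟨E, h, rfl⟩
        · exact Or.inr (Or.inr ⟨E, h, rfl⟩)
  have hRnd : R.Nodup := by
    have h1 : R.Perm (0 :: (star (P ++ Q)).map (fun e => e + 1)) := by
      rw [star_append, List.map_append]
      exact List.perm_middle
    rw [h1.nodup_iff, List.nodup_cons]
    refine ⟨?_, ?_⟩
    · rw [List.mem_map]
      rintro ⟨a, -, ha⟩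
      omega
    · refine List.Nodup.map (fun a b hab => ?_) (star_nodup ?_)
      · have h' : a + 1 = b + 1 := hab
        omega
      · rw [hPQ.nodup_iff]
        exact List.nodup_range
  have h0R : 0 ∈ R := (hRm 0).2 (Or.inl rfl)
  have hER : ∀ E < 5 * m, E + 1 ∈ R := fun E hE => (hRm _).2 (Or.inr ⟨E, hE, rfl⟩)
  have hLm : ∀ c ∈ L, (∃ E < 5 * m, c = 3 * E + 1) ∨ ∃ l < 4, c = 3 * l := fun c hc =>
    Lg_mem (hL.mem_iff.1 hc)
  have hBsf : ∀ r ∈ R, SFr (B r) := by
    intro r hr c hc
    rcases (hRm r).1 hr with rfl | ⟨E, hE, rfl⟩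
    · rcases hLm c hc with ⟨E, -, rfl⟩ | ⟨l, -, rfl⟩ <;> omega
    · rw [hBs, List.mem_singleton] at hc
      omega
  rw [hWm] at hww'
  obtain ⟨B', e, hB'sf', hesf, rfl⟩ := dec β H3 R B w' hRnd hBsf hww'
  have hB'sf : ∀ r ∈ R, SFr (B' r) := fun r _ => hB'sf' r
  have hz : ∀ E < 5 * m, (∀ q ∈ R, (B' q).count (3 * E + 1) = if q = 0 ∨ q = E + 1 then 1 else 0) ∧
      e.count (3 * E + 1) = 0 := by
    intro E hE
    refine kp2 β H3 R B B' e hRnd hBsf hB'sf hesf hww' (3 * E + 1) 0 (E + 1) (by omega) h0R
      (hER E hE) (by omega) fun q hq => ?_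
    rcases (hRm q).1 hq with rfl | ⟨E', hE', rfl⟩
    · rw [hB0, hL.count_eq, Lg_z hE, if_pos (Or.inl rfl)]
    · rw [hBs]
      by_cases h : E' = E
      · subst h
        rw [if_pos (Or.inr rfl)]
        simp
      · rw [if_neg (by omega), List.count_eq_zero, List.mem_singleton]
        omega
  have hbtw : ∀ (j : Fin 4) (k : ℕ), (k = j.val ∨ k = j.val + 1) →
      Btw (3 * (g j).val) (3 * (5 * 0 + k) + 1) (Bw R B' ++ e) := by
    intro j k hk
    have hk5 : k < 5 := by
      have := j.isLt
      omega
    have h1 := (hInc j k hk5).2 hk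
    unfold Inc at h1
    have h2 := hww'.sub (pj (g j).val k)
    rw [← hWm, Wm_flat P Q L _ k hk5] at h2
    have h3 : RR β (bw P Q m) ((Bw R B' ++ e).flatMap (pj (g j).val k)) := β.trans h1.symm h2
    exact lift_btw (pj (g j).val k) (pj_len _ _) (fun c h => pj_zero h)
      (fun c h => pj_one hk5 h) ((hHH _ h3).2 0 (by omega))
  have hcnt2 : ∀ j : Fin 4, (Bw R B' ++ e).count (3 * (g j).val) = 2 := by
    intro j
    have hk5 : j.val < 5 := by
      have := j.isLt
      omega
    have h1 := (hInc j j.val hk5).2 (Or.inl rfl)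
    unfold Inc at h1
    have h2 := hww'.sub (pj (g j).val j.val)
    rw [← hWm, Wm_flat P Q L _ j.val hk5] at h2
    have h3 : RR β (bw P Q m) ((Bw R B' ++ e).flatMap (pj (g j).val j.val)) :=
      β.trans h1.symm h2
    rw [← count_pj (g j).val j.val]
    exact (hHH _ h3).1
  have hy' : ∀ j : Fin 4, (∀ q ∈ R, (B' q).count (3 * (g j).val) = if q = 0 then 2 else 0) ∧
      e.count (3 * (g j).val) = 0 := by
    intro j
    have hj := j.isLt
    rcases kpl β H3 R B B' e hRnd hBsf hB'sf hesf hww' (3 * (g j).val) 0 (by omega) h0R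
      (hcnt2 j)
      (fun q hq => by
        rcases (hRm q).1 hq with rfl | ⟨E', hE', rfl⟩
        · rw [hB0, hL.count_eq, Lg_y (g j).isLt, if_pos rfl]
        · rw [hBs, if_neg (by omega), List.count_eq_zero, List.mem_singleton]
          omega) with ⟨⟨s, hs, hcs, -⟩, he⟩ | ⟨hcs, he, -⟩
    · rcases eq_or_ne s 0 with h0 | h0
      · subst h0
        exact ⟨hcs, he⟩
      · exfalso
        have key : ∀ k, (k = j.val ∨ k = j.val + 1) → s = k + 1 := by
          intro k hk
          obtain ⟨a, b, c, h1, h2⟩ := hbtw j k hk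
          obtain ⟨R1, R2, hR12⟩ := List.append_of_mem hs
          have hnd := hRnd
          rw [hR12] at hnd
          have hs1 : s ∉ R1 := fun h => by
            rw [List.nodup_append] at hnd
            exact hnd.2.2 s h s (by simp) rfl
          have hs2 : s ∉ R2 := fun h => by
            rw [List.nodup_append] at hnd
            exact (List.nodup_cons.1 hnd.2.1).1 h
          have hno : ∀ R' : List ℕ, (∀ q ∈ R', q ∈ R) → s ∉ R' → 3 * (g j).val ∉ Bw R' B' := by
            intro R' hsub hsR' hmem
            obtain ⟨r, hr, h | h⟩ := mem_Bw hmem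
            · have h3 := hcs r (hsub r hr)
              rw [if_neg (fun h4 : r = s => hsR' (h4 ▸ hr)), List.count_eq_zero] at h3
              exact h3 h
            · omega
          have h4 : Bw R1 B' ++ (B' s ++ ((3 * s + 2) :: Bw R2 B' ++ e)) =
              a ++ 3 * (g j).val :: (b ++ 3 * (g j).val :: c) := by
            rw [← h1, hR12, Bw_append, Bw_cons]
            simp
          have h5 : 3 * (5 * 0 + k) + 1 ∈ B' s := by
            refine mid_block (hno R1 (fun q hq => by rw [hR12]; simp [hq]) hs1) ?_ h4 _ h2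
            rw [List.mem_append, List.mem_cons]
            rintro ((h6 | h6) | h6)
            · omega
            · exact hno R2 (fun q hq => by rw [hR12]; simp [hq]) hs2 h6
            · exact List.count_eq_zero.1 he h6
          have h6 := (hz (5 * 0 + k) (by omega)).1 s hs
          by_contra hne
          rw [if_neg (by omega), List.count_eq_zero] at h6
          exact h6 h5
        have k1 := key j.val (Or.inl rfl)
        have k2 := key (j.val + 1) (Or.inr rfl)
        omega
    · exfalso
      obtain ⟨a, b, c, h1, h2⟩ := hbtw j j.val (Or.inl rfl)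
      have h4 : Bw R B' ++ (e ++ []) = a ++ 3 * (g j).val :: (b ++ 3 * (g j).val :: c) := by
        rw [← h1, List.append_nil]
      have h5 : 3 * (5 * 0 + j.val) + 1 ∈ e := by
        refine mid_block ?_ (by simp) h4 _ h2
        intro hmem
        obtain ⟨r, hr, h | h⟩ := mem_Bw hmem
        · exact List.count_eq_zero.1 (hcs r hr) h
        · omega
      exact List.count_eq_zero.1 (hz (5 * 0 + j.val) (by omega)).2 h5
  have hy : ∀ l < 4, (∀ q ∈ R, (B' q).count (3 * l) = if q = 0 then 2 else 0) ∧
      e.count (3 * l) = 0 := by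
    intro l hl
    have h := hy' (g.symm ⟨l, hl⟩)
    rw [Equiv.apply_symm_apply] at h
    exact h
  have hcon : ∀ c ∈ Bw R B' ++ e, c % 3 ≠ 2 →
      (∃ E < 5 * m, c = 3 * E + 1) ∨ ∃ l < 4, c = 3 * l := by
    intro c hc h2
    by_contra hno
    refine hww'.content H3 (c := c) ?_ hc
    intro hm
    obtain ⟨r, hr, h | h⟩ := mem_Bw hm
    · rcases (hRm r).1 hr with rfl | ⟨E, hE, rfl⟩
      · exact hno (hLm c h)
      · rw [hBs, List.mem_singleton] at h
        exact hno (Or.inl ⟨E, hE, h⟩)
    · omega
  have he0 : e = [] := by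
    rw [List.eq_nil_iff_forall_not_mem]
    intro c hc
    rcases hcon c (by simp [hc]) (hesf c hc) with ⟨E, hE, rfl⟩ | ⟨l, hl, rfl⟩
    · exact List.count_eq_zero.1 (hz E hE).2 hc
    · exact List.count_eq_zero.1 (hy l hl).2 hc
  have hperm : ∀ q ∈ R, (B' q).Perm (B q) := by
    intro q hq
    rw [List.perm_iff_count]
    intro c
    by_cases h1 : ∃ E < 5 * m, c = 3 * E + 1
    · obtain ⟨E, hE, rfl⟩ := h1
      rw [(hz E hE).1 q hq]
      rcases (hRm q).1 hq with rfl | ⟨E', hE', rfl⟩
      · rw [hB0, hL.count_eq, Lg_z hE, if_pos (Or.inl rfl)]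
      · rw [hBs]
        by_cases h : E' = E
        · subst h
          rw [if_pos (Or.inr rfl)]
          simp
        · rw [if_neg (by omega)]
          symm
          rw [List.count_eq_zero, List.mem_singleton]
          omega
    · by_cases h2 : ∃ l < 4, c = 3 * l
      · obtain ⟨l, hl, rfl⟩ := h2
        rw [(hy l hl).1 q hq]
        rcases (hRm q).1 hq with rfl | ⟨E', hE', rfl⟩
        · rw [hB0, hL.count_eq, Lg_y hl, if_pos rfl]
        · rw [hBs, if_neg (by omega)]
          symm
          rw [List.count_eq_zero, List.mem_singleton]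
          omega
      · have h3 : c ∉ B' q := by
          intro hc
          rcases hcon c (by simp [mem_Bw_of hq hc]) (hB'sf' q c hc) with h | h
          · exact h1 h
          · exact h2 h
        have h4 : c ∉ B q := by
          intro hc
          rcases (hRm q).1 hq with rfl | ⟨E', hE', rfl⟩
          · rcases hLm c hc with h | h
            · exact h1 h
            · exact h2 h
          · rw [hBs, List.mem_singleton] at hc
            exact h1 ⟨E', hE', hc⟩
        rw [List.count_eq_zero.2 h3, List.count_eq_zero.2 h4]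
  have hW' : Bw R B' ++ e = Wm (star P) (star Q) (B' 0) := by
    rw [he0, List.append_nil]
    show Bw R B' = Bw R (fun r => if r = 0 then B' 0 else [3 * (r - 1) + 1])
    unfold Bw
    apply List.flatMap_congr
    intro q hq
    rcases (hRm q).1 hq with rfl | ⟨E, hE, rfl⟩
    · simp
    · have h1 := hperm _ hq
      rw [hBs, List.perm_singleton] at h1
      rw [h1]
      simp
  refine ⟨B' 0, hW', (hperm 0 h0R).trans hL, fun j k hk => ?_⟩
  rw [← hInc j k hk]
  have h1 := hww'.sub (pj (g j).val k)
  rw [← hWm, hW', Wm_flat P Q L _ k hk, Wm_flat P Q (B' 0) _ k hk] at h1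
  unfold Inc
  exact ⟨fun h => β.trans h1 h, fun h => β.trans h1.symm h⟩

end

end Pool.Agent.MWD.H11
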